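import Pool.Agent.Helper38.GP.Calc0B

/-! The discriminant of six smooth sheets. -/

namespace Pool.Agent.Helper80.R3

open MvPowerSeries Pool.Agent.Helper38.EQ Pool.Agent.Helper38.GP
open Pool.Agent.Helper38.ED (LI LI_iff Rad comps0 comps1 isUnit_natCast_add isUnit_one_add
  rad_comps1)

variable {m : ℕ} {K : Type} [Field K] {z x1 x2 x3 a1 : MvPowerSeries (Fin (m + 1)) K}

/-- The conditions on `z, x1, x2, x3, a1`. -/
structure GoodR {m : ℕ} {K : Type} [Field K] (z x1 x2 x3 a1 : MvPowerSeries (Fin (m + 1)) K) :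
    Prop where
  mz : z ∈ IsLocalRing.maximalIdeal (MvPowerSeries (Fin (m + 1)) K)
  nz : z ∉ IsLocalRing.maximalIdeal (MvPowerSeries (Fin (m + 1)) K) ^ 2
  m1 : x1 ∈ IsLocalRing.maximalIdeal (MvPowerSeries (Fin (m + 1)) K)
  m2 : x2 ∈ IsLocalRing.maximalIdeal (MvPowerSeries (Fin (m + 1)) K)
  m3 : x3 ∈ IsLocalRing.maximalIdeal (MvPowerSeries (Fin (m + 1)) K)
  ma : a1 ∈ IsLocalRing.maximalIdeal (MvPowerSeries (Fin (m + 1)) K)

private theorem GoodR_aux (h : GoodR z x1 x2 x3 a1) {e : MvPowerSeries (Fin (m + 1)) K}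
    (he : z - e ∈ IsLocalRing.maximalIdeal (MvPowerSeries (Fin (m + 1)) K) ^ 2) :
    e ∈ IsLocalRing.maximalIdeal (MvPowerSeries (Fin (m + 1)) K) ∧
    e ∉ IsLocalRing.maximalIdeal (MvPowerSeries (Fin (m + 1)) K) ^ 2 := by
  constructor
  · have h1 := Ideal.sub_mem _ h.mz (Ideal.pow_le_self two_ne_zero he)
    rwa [sub_sub_cancel] at h1
  · intro h1
    have h2 := Ideal.add_mem _ he h1
    rw [sub_add_cancel] at h2
    exact h.nz h2

private def calcM {R : Type} [CommRing R] (x1 x2 x3 a1 : R) : Fin 6 → R :=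
  ![0, x1, 1, 1 + x1 + x2 * x3, 2 + a1, 2 + a1 + x1 + 2 * x2 * x3 + 0 * x2 ^ 2]

private def calcc : Fin 6 → ℕ := ![0, 0, 1, 1, 2, 2]

private theorem calc_comps {R : Type} [CommRing R] (z x1 x2 x3 a1 : R) (i : Fin 6) :
    comps0 z x1 x2 x3 0 a1 i = z - x2 ^ 2 * calcM x1 x2 x3 a1 i := by
  fin_cases i <;> simp [comps0, calcM]

theorem GoodR.comps_mem (h : GoodR z x1 x2 x3 a1) (i : Fin 6) :
    comps0 z x1 x2 x3 0 a1 i ∈ IsLocalRing.maximalIdeal (MvPowerSeries (Fin (m + 1)) K) ∧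
    comps0 z x1 x2 x3 0 a1 i ∉ IsLocalRing.maximalIdeal (MvPowerSeries (Fin (m + 1)) K) ^ 2 := by
  have h2 : x2 ^ 2 ∈ IsLocalRing.maximalIdeal (MvPowerSeries (Fin (m + 1)) K) ^ 2 :=
    Ideal.pow_mem_pow h.m2 2
  rw [calc_comps]
  apply GoodR_aux h
  rw [sub_sub_cancel]
  exact Ideal.mul_mem_right _ _ h2

private theorem calc_mem (h : GoodR z x1 x2 x3 a1) (i : Fin 6) :
    calcM x1 x2 x3 a1 i - (calcc i : MvPowerSeries (Fin (m + 1)) K) ∈
      IsLocalRing.maximalIdeal (MvPowerSeries (Fin (m + 1)) K) := by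
  have h1 := h.m1
  have h2 := h.m2
  have h4 := h.ma
  fin_cases i
  · simp [calcM, calcc]
  · simpa [calcM, calcc] using h1
  · simp [calcM, calcc]
  · have : calcM x1 x2 x3 a1 3 - ((calcc 3 : ℕ) : MvPowerSeries (Fin (m + 1)) K) =
        x1 + x2 * x3 := by
      simp only [calcM, calcc]
      simp
      ring
    change calcM x1 x2 x3 a1 3 - ((calcc 3 : ℕ) : MvPowerSeries (Fin (m + 1)) K) ∈ _
    rw [this]
    exact Ideal.add_mem _ h1 (Ideal.mul_mem_right _ _ h2)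
  · simpa [calcM, calcc] using h4
  · have : calcM x1 x2 x3 a1 5 - ((calcc 5 : ℕ) : MvPowerSeries (Fin (m + 1)) K) =
        a1 + x1 + x2 * (2 * x3) := by
      simp only [calcM, calcc]
      simp
      ring
    change calcM x1 x2 x3 a1 5 - ((calcc 5 : ℕ) : MvPowerSeries (Fin (m + 1)) K) ∈ _
    rw [this]
    exact Ideal.add_mem _ (Ideal.add_mem _ h4 h1) (Ideal.mul_mem_right _ _ h2)

/-- The restriction of `z`. -/
private theorem calc_z (p : Proj m K)
    (s : ∀ i, Sec p (comps0 z x1 x2 x3 0 a1 i)) (i : Fin 6) :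
    (s i).pull z = (s i).pull x2 ^ 2 * (s i).pull (calcM x1 x2 x3 a1 i) := by
  have h := (s i).pull_self
  have h2 := congrArg (s i).pull (calc_comps z x1 x2 x3 a1 i)
  rw [h, map_sub, map_mul, map_pow] at h2
  exact sub_eq_zero.1 h2.symm

private theorem calc_pull (p : Proj m K)
    (s : ∀ i, Sec p (comps0 z x1 x2 x3 0 a1 i)) (i j : Fin 6) :
    (s i).pull (comps0 z x1 x2 x3 0 a1 j) = - ((s i).pull x2 ^ 2 *
      (s i).pull (calcM x1 x2 x3 a1 j - calcM x1 x2 x3 a1 i)) := by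
  have h2 := congrArg (s i).pull (calc_comps z x1 x2 x3 a1 j)
  rw [h2, map_sub, map_mul, map_pow, calc_z p s i, map_sub]
  ring

/-- The differences of the roots, up to units. -/
theorem GoodR.x2_assoc [CharZero K] (h : GoodR z x1 x2 x3 a1) (p : Proj m K)
    (s : ∀ i, Sec p (comps0 z x1 x2 x3 0 a1 i)) (i : Fin 6) :
    Associated ((s i).pull x2) ((s 0).pull x2) ∧
    (s 0).pull x2 ^ 2 ∣ (s i).r - (s 0).r := by
  have h1 : (s 0).pull x2 ^ 2 ∣ (s i).r - (s 0).r := by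
    have h2 := (s 0).assoc (s i)
    have h3 : (s 0).pull x2 ^ 2 ∣ (s 0).pull (comps0 z x1 x2 x3 0 a1 i) := by
      rw [calc_pull p s 0 i]
      exact (Dvd.intro _ rfl).neg_right
    have h4 : (s 0).pull x2 ^ 2 ∣ (s 0).r - (s i).r := h3.trans h2.dvd
    have h5 := h4.neg_right
    rwa [neg_sub] at h5
  refine ⟨?_, h1⟩
  have hb : (s 0).pull x2 ∈ IsLocalRing.maximalIdeal (R1 m K) := (s 0).pull_mem h.m2
  obtain ⟨t, ht⟩ := h1.trans ((s 0).pull_sub_dvd (s i) x2)
  have hu : IsUnit (1 + (s 0).pull x2 * t) :=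
    isUnit_one_add (K := K) (Ideal.mul_mem_right _ _ hb)
  have heq : (s i).pull x2 = (s 0).pull x2 * (1 + (s 0).pull x2 * t) := by
    linear_combination ht
  rw [heq]
  exact associated_mul_unit_left _ _ hu

/-- The restrictions of the equations to each other, up to units. -/
theorem GoodR.pull_assoc [CharZero K] (h : GoodR z x1 x2 x3 a1) (p : Proj m K)
    (s : ∀ i, Sec p (comps0 z x1 x2 x3 0 a1 i)) :
    Associated ((s 0).pull (comps0 z x1 x2 x3 0 a1 1)) ((s 0).pull x2 ^ 2 * (s 0).pull x1) ∧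
    Associated ((s 2).pull (comps0 z x1 x2 x3 0 a1 3))
      ((s 0).pull x2 ^ 2 * (s 2).pull (x1 + x2 * x3)) ∧
    Associated ((s 4).pull (comps0 z x1 x2 x3 0 a1 5))
      ((s 0).pull x2 ^ 2 * (s 4).pull (x1 + 2 * x2 * x3 + 0 * x2 ^ 2)) ∧
    ∀ i j, i < j → ¬ (i = 0 ∧ j = 1) → ¬ (i = 2 ∧ j = 3) → ¬ (i = 4 ∧ j = 5) →
      Associated ((s i).pull (comps0 z x1 x2 x3 0 a1 j)) ((s 0).pull x2 ^ 2) := by
  have key : ∀ (i j : Fin 6) (L : MvPowerSeries (Fin (m + 1)) K),
      calcM x1 x2 x3 a1 j - calcM x1 x2 x3 a1 i = L →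
      Associated ((s i).pull (comps0 z x1 x2 x3 0 a1 j)) ((s 0).pull x2 ^ 2 * (s i).pull L) := by
    intro i j L hL
    rw [calc_pull p s i j, hL]
    have h1 := ((h.x2_assoc p s i).1.pow_pow (n := 2)).mul_right ((s i).pull L)
    exact (Associated.neg_left (Associated.refl _)).trans h1
  refine ⟨key 0 1 x1 ?_, key 2 3 _ ?_, key 4 5 _ ?_, ?_⟩
  · simp [calcM]
  · simp only [calcM]
    simp
    ring
  · simp only [calcM]
    simp
    ring
  · intro i j hij h01 h23 h45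
    have hc : ∀ i j : Fin 6, i < j → ¬ (i = 0 ∧ j = 1) → ¬ (i = 2 ∧ j = 3) → ¬ (i = 4 ∧ j = 5) →
        calcc i < calcc j := by
      decide
    have hlt := hc i j hij h01 h23 h45
    have h1 := key i j _ rfl
    have hu : IsUnit (calcM x1 x2 x3 a1 j - calcM x1 x2 x3 a1 i) := by
      have hm := Ideal.sub_mem _ (calc_mem h j) (calc_mem h i)
      have h2 := isUnit_natCast_add (m := calcc j - calcc i) (by omega) hm
      have h3 : ((calcc j - calcc i : ℕ) : MvPowerSeries (Fin (m + 1)) K) +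
          (calcM x1 x2 x3 a1 j - (calcc j : MvPowerSeries (Fin (m + 1)) K) -
          (calcM x1 x2 x3 a1 i - (calcc i : MvPowerSeries (Fin (m + 1)) K))) =
          calcM x1 x2 x3 a1 j - calcM x1 x2 x3 a1 i := by
        rw [Nat.cast_sub hlt.le]
        ring
      rwa [h3] at h2
    exact h1.trans (associated_mul_unit_left _ _ (hu.map _))

/-- The products of the restrictions, abstractly. -/
private theorem calc_abs {R : Type} [CommRing R] {a b e f : R} (A : Fin 6 → Fin 6 → R)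
    (h01 : Associated (A 0 1) (b ^ 2 * a)) (h23 : Associated (A 2 3) (b ^ 2 * e))
    (h45 : Associated (A 4 5) (b ^ 2 * f))
    (hA : ∀ i j, i < j → ¬ (i = 0 ∧ j = 1) → ¬ (i = 2 ∧ j = 3) → ¬ (i = 4 ∧ j = 5) →
      Associated (A i j) (b ^ 2)) :
    (∀ i j, i < j → A i j ∣ (a * b * e * f) ^ 2) ∧
    (a * b * e * f ∣ ∏ i, ∏ j ∈ Finset.univ.filter (fun j => i < j), A i j) := by
  have key : ∀ i j, i < j → A i j ∣ (a * b * e * f) ^ 2 := by
    intro i j hij
    by_cases c1 : i = 0 ∧ j = 1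
    · obtain ⟨rfl, rfl⟩ := c1
      exact h01.dvd.trans ⟨a * e ^ 2 * f ^ 2, by ring⟩
    by_cases c2 : i = 2 ∧ j = 3
    · obtain ⟨rfl, rfl⟩ := c2
      exact h23.dvd.trans ⟨a ^ 2 * e * f ^ 2, by ring⟩
    by_cases c3 : i = 4 ∧ j = 5
    · obtain ⟨rfl, rfl⟩ := c3
      exact h45.dvd.trans ⟨a ^ 2 * e ^ 2 * f, by ring⟩
    have h1 := hA i j hij c1 c2 c3
    exact h1.dvd.trans ⟨a ^ 2 * e ^ 2 * f ^ 2, by ring⟩
  refine ⟨key, ?_⟩
  have h1 : a * b * e * f ∣ A 0 1 * (A 2 3 * A 4 5) := by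
    refine Dvd.dvd.trans ?_ (mul_dvd_mul h01.symm.dvd (mul_dvd_mul h23.symm.dvd h45.symm.dvd))
    exact ⟨b ^ 5, by ring⟩
  have h2 : ∀ i j, i < j → A i j ∣ ∏ j ∈ Finset.univ.filter (fun j => i < j), A i j := by
    intro i j hij
    exact Finset.dvd_prod_of_mem (fun j => A i j) (Finset.mem_filter.2 ⟨Finset.mem_univ j, hij⟩)
  refine h1.trans ((mul_dvd_mul (h2 0 1 (by decide))
    (mul_dvd_mul (h2 2 3 (by decide)) (h2 4 5 (by decide)))).trans ?_)
  have h3 := Finset.prod_dvd_prod_of_subset ({0, 2, 4} : Finset (Fin 6)) Finset.univ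
    (fun i => ∏ j ∈ Finset.univ.filter (fun j => i < j), A i j) (Finset.subset_univ _)
  rw [Finset.prod_insert (by decide), Finset.prod_insert (by decide), Finset.prod_singleton] at h3
  exact h3

/-- The discriminant, if it is radical. -/
theorem GoodR.isDisc [CharZero K] (h : GoodR z x1 x2 x3 a1) (p : Proj m K)
    (s : ∀ i, Sec p (comps0 z x1 x2 x3 0 a1 i)) {c d : R1 m K}
    (h1 : (s 2).pull (x1 + x2 * x3) = (s 0).pull x1 + (s 0).pull x2 * c)
    (h2 : (s 4).pull (x1 + 2 * x2 * x3 + 0 * x2 ^ 2) =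
      (s 0).pull x1 + 2 * (s 0).pull x2 * c + (s 0).pull x2 ^ 2 * d)
    (hrad : Rad (∏ i, comps1 ((s 0).pull x1) ((s 0).pull x2) c d i)) :
    IsDisc s (∏ i, comps1 ((s 0).pull x1) ((s 0).pull x2) c d i) := by
  obtain ⟨k01, k23, k45, kk⟩ := h.pull_assoc p s
  rw [h1] at k23
  rw [h2] at k45
  obtain ⟨r1, r2⟩ := calc_abs (fun i j => (s i).pull (comps0 z x1 x2 x3 0 a1 j))
    k01 k23 k45 kk
  have hP : ∏ i, comps1 ((s 0).pull x1) ((s 0).pull x2) c d i =
      (s 0).pull x1 * (s 0).pull x2 * ((s 0).pull x1 + (s 0).pull x2 * c) *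
        ((s 0).pull x1 + 2 * (s 0).pull x2 * c + (s 0).pull x2 ^ 2 * d) := by
    rw [Fin.prod_univ_four]
    rfl
  refine ⟨hrad, fun i j hij => ⟨2, ?_⟩, ⟨1, ?_⟩⟩
  · rw [hP]
    exact r1 i j hij
  · rw [hP, pow_one]
    exact r2

/-- The critical variety of a projection for which `w` is a unit. -/
theorem GoodR.calc [CharZero K] (h : GoodR z x1 x2 x3 a1) (hli : LI ![z, x1, x2, x3, a1])
    (p : Proj m K) (s : ∀ i, Sec p (comps0 z x1 x2 x3 0 a1 i))
    (hw : ∀ (w : R1 m K) (q : PowerSeries (R1 m K)),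
      p.σ (ex x1) = PowerSeries.C ((s 0).pull x1) + (PowerSeries.X - PowerSeries.C (s 0).r) * q →
      w * (s 0).ε (s 0).U = (s 0).ε q → IsUnit w) :
    ∃ (c d w : R1 m K), IsUnit w ∧
      LI ![(s 0).pull x1, (s 0).pull x2, c, d] ∧
      IsDisc s (∏ i, comps1 ((s 0).pull x1) ((s 0).pull x2) c d i) ∧
      d - w * (s 0).pull a1 ∈ Ideal.span {(s 0).pull x2, (s 0).pull x3} := by
  obtain ⟨c, d, w, q, h1, h2, h3, h4, h5, h6⟩ := calc0B_gen (a0 := 0) p s (h.x2_assoc p s 2).2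
    (h.x2_assoc p s 4).2
  have hwu := hw w q h4 h5
  rw [map_zero, zero_add] at h6
  have m1 := (s 0).pull_mem h.m1
  have m2 := (s 0).pull_mem h.m2
  have m3 := (s 0).pull_mem h.m3
  have ma := (s 0).pull_mem h.ma
  have hLI0 : LI (fun i => (s 0).pull ((![x1, x2, x3, a1] : Fin 4 → _) i)) := by
    refine Sec.LI_pull (s 0) ![x1, x2, x3, a1] ?_
    have e1 : (Fin.cons (comps0 z x1 x2 x3 0 a1 0) ![x1, x2, x3, a1] :
        Fin 5 → MvPowerSeries (Fin (m + 1)) K) = ![z, x1, x2, x3, a1] := by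
      funext j
      fin_cases j <;> rfl
    rw [e1]
    exact hli
  obtain ⟨k, hk⟩ := h3
  have hc3 : c = (s 0).pull x3 + (s 0).pull x2 * k := by linear_combination hk
  have hsp : Ideal.span {(s 0).pull x2, (s 0).pull x3} ≤ IsLocalRing.maximalIdeal (R1 m K) := by
    rw [Ideal.span_le]
    intro x hx
    rcases hx with rfl | hx
    · exact m2
    · rw [Set.mem_singleton_iff] at hx
      rw [hx]
      exact m3
  have hLI : LI ![(s 0).pull x1, (s 0).pull x2, c, d] := by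
    set J : Ideal (R1 m K) := Ideal.span (Set.range (![(s 0).pull x1, (s 0).pull x2, c, d] :
      Fin 4 → R1 m K)) with hJ
    have j0 : (s 0).pull x1 ∈ J := Ideal.subset_span ⟨0, rfl⟩
    have j1 : (s 0).pull x2 ∈ J := Ideal.subset_span ⟨1, rfl⟩
    have j2 : c ∈ J := Ideal.subset_span ⟨2, rfl⟩
    have j3 : d ∈ J := Ideal.subset_span ⟨3, rfl⟩
    have j4 : (s 0).pull x3 ∈ J := by
      have h3 : (s 0).pull x3 = c - (s 0).pull x2 * k := by rw [hc3]; ring
      rw [h3]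
      exact Ideal.sub_mem _ j2 (Ideal.mul_mem_right _ _ j1)
    have hsp2 : Ideal.span {(s 0).pull x2, (s 0).pull x3} ≤ J := by
      rw [Ideal.span_le]
      intro x hx
      rcases hx with rfl | hx
      · exact j1
      · rw [Set.mem_singleton_iff] at hx
        rw [hx]
        exact j4
    have j5 : (s 0).pull a1 ∈ J := by
      have h3 : w * (s 0).pull a1 ∈ J := by
        have h4 : w * (s 0).pull a1 = d - (d - w * (s 0).pull a1) := by ring
        rw [h4]
        exact Ideal.sub_mem _ j3 (hsp2 h6)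
      exact (Ideal.unit_mul_mem_iff_mem _ hwu).1 h3
    refine LI.of_span hLI0 (fun i => ?_) (fun i => ?_)
    · fin_cases i
      · exact m1
      · exact m2
      · show c ∈ _
        rw [hc3]
        exact Ideal.add_mem _ m3 (Ideal.mul_mem_right _ _ m2)
      · show d ∈ _
        have h3 : d = (d - w * (s 0).pull a1) + w * (s 0).pull a1 := by ring
        rw [h3]
        exact Ideal.add_mem _ (hsp h6) (Ideal.mul_mem_left _ _ ma)
    · fin_cases i
      · exact j0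
      · exact j1
      · exact j4
      · exact j5
  exact ⟨c, d, w, hwu, hLI, h.isDisc p s h1 h2 (rad_comps1 hLI), h6⟩

end Pool.Agent.Helper80.R3
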