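import Pool.Agent.Helper38.GP.Stmt

/-! The example: six smooth sheets in `5`-space. -/

namespace Pool.Agent.Helper80.R3

open MvPowerSeries Pool.Agent.Helper38.EQ Pool.Agent.Helper38.GP

/-- The six power series `m` (polynomials); the coordinates are `z = X 0`, `x_i = X i` (`i ≤ 3`),
`t = X 4`. -/
noncomputable def exM (K : Type) [Field K] : Fin 6 → MvPowerSeries (Fin 5) K :=
  ![0, X 1, 1, 1 + (X 1 + X 2 * X 3), 2 + X 4, 2 + X 4 + (X 1 + 2 * X 2 * X 3)]

/-- The equation of `V`: the product of the six polynomials `z - x₂² m`. -/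
noncomputable def exF (K : Type) [Field K] : MvPowerSeries (Fin 5) K :=
  ∏ i, (X 0 - X 2 ^ 2 * exM K i)

/-- The ideal of `W`: the line `z = x₁ = x₂ = x₃ = 0`. -/
noncomputable def exI (K : Type) [Field K] : Ideal (MvPowerSeries (Fin 5) K) :=
  Ideal.span {X 0, X 1, X 2, X 3}

end Pool.Agent.Helper80.R3
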