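import Pool.Agent.Helper80.R3.Neg
import Pool.Agent.Helper38.GP.Pos4
import Pool.Agent.Helper38.GP.PosLevels

/-! `V` is equisingular along `W`. -/

namespace Pool.Agent.Helper80.R3

open MvPowerSeries Pool.Agent.Helper38.EQ
open Pool.Agent.Helper38.GP hiding exM exF exI good_ex exF_eq curveIdeal_ex
open Pool.Agent.Helper38.ED (LI comps0 comps1 comps3 Rad prime_of_notMem_sq)

section

variable {n : ℕ} {K : Type} [Field K]

theorem li_sub {a b c : MvPowerSeries (Fin n) K} (h : LI ![a, b, c]) (k : MvPowerSeries (Fin n) K) :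
    LI ![a + k * (b * c), b, c] := by
  refine h.congr fun i => ?_
  fin_cases i
  · show a + k * (b * c) - a ∈ _
    rw [add_sub_cancel_left, pow_two]
    exact Ideal.mul_mem_left _ _ (Ideal.mul_mem_mul (h.mem 1) (h.mem 2))
  · show b - b ∈ _
    rw [sub_self]
    exact Ideal.zero_mem _
  · show c - c ∈ _
    rw [sub_self]
    exact Ideal.zero_mem _

theorem li_not {a b c : MvPowerSeries (Fin n) K} (h : LI ![a, b, c]) (k : MvPowerSeries (Fin n) K) :
    ¬ a + k * (b * c) ∣ b ∧ ¬ a + k * (b * c) ∣ c ∧ ¬ b ∣ a + k * (b * c) ∧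
      Prime (a + k * (b * c)) := by
  have h1 := li_sub h k
  have h01 : LI ![a + k * (b * c), b] := by
    have := h1.comp (![0, 1] : Fin 2 → Fin 3) (by decide)
    have e : (fun i => (![a + k * (b * c), b, c] : Fin 3 → _) ((![0, 1] : Fin 2 → Fin 3) i)) =
        ![a + k * (b * c), b] := by
      funext i
      fin_cases i <;> rfl
    rwa [e] at this
  have h02 : LI ![a + k * (b * c), c] := by
    have := h1.comp (![0, 2] : Fin 2 → Fin 3) (by decide)
    have e : (fun i => (![a + k * (b * c), b, c] : Fin 3 → _) ((![0, 2] : Fin 2 → Fin 3) i)) =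
        ![a + k * (b * c), c] := by
      funext i
      fin_cases i <;> rfl
    rwa [e] at this
  have h10 : LI ![b, a + k * (b * c)] := by
    have := h1.comp (![1, 0] : Fin 2 → Fin 3) (by decide)
    have e : (fun i => (![a + k * (b * c), b, c] : Fin 3 → _) ((![1, 0] : Fin 2 → Fin 3) i)) =
        ![b, a + k * (b * c)] := by
      funext i
      fin_cases i <;> rfl
    rwa [e] at this
  exact ⟨h01.not_dvd, h02.not_dvd, h10.not_dvd, prime_of_notMem_sq (h1.mem 0) (h1.notMem_sq 0)⟩

private theorem two_unit [CharZero K] : IsUnit (2 : MvPowerSeries (Fin n) K) := by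
  have := Pool.Agent.Helper38.ED.isUnit_natCast_add (n := n) (K := K) (m := 2) (by norm_num)
    (Ideal.zero_mem (IsLocalRing.maximalIdeal (MvPowerSeries (Fin n) K)))
  rw [add_zero] at this
  exact_mod_cast this

/-- the factors of `a` -/
private def kk {R : Type} [CommRing R] : Fin 4 → R := ![0, 0, 1, 2]

private theorem comps_eq {R : Type} [CommRing R] (a b c : R) (i : Fin 4) (hi : i ≠ 1) :
    comps1 a b c 0 i = a + kk i * (b * c) := by
  fin_cases i
  · simp [comps1, kk]
  · exact absurd rfl hi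
  · simp [comps1, kk]
  · simp [comps1, kk]
    ring

theorem rad10 [CharZero K] {a b c : MvPowerSeries (Fin n) K} (h : LI ![a, b, c]) :
    Rad (∏ i, comps1 a b c 0 i) := by
  have hb : Prime b := prime_of_notMem_sq (h.mem 1) (h.notMem_sq 1)
  have h1 : comps1 a b c 0 1 = b := rfl
  refine Pool.Agent.Helper38.ED.Rad.prod _ (fun i => ?_) (fun i j hij => ?_)
  · by_cases hi : i = 1
    · rw [hi, h1]
      exact hb
    · rw [comps_eq a b c i hi]
      exact (li_not h _).2.2.2
  · by_cases hi : i = 1
    · have hj : j ≠ 1 := fun hj => hij (hi.trans hj.symm)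
      rw [hi, h1, comps_eq a b c j hj]
      exact (li_not h _).2.2.1
    · by_cases hj : j = 1
      · rw [hj, h1, comps_eq a b c i hi]
        exact (li_not h _).1
      · rw [comps_eq a b c i hi, comps_eq a b c j hj]
        intro hd
        have h2 : IsUnit ((kk j : MvPowerSeries (Fin n) K) - kk i) := by
          have u1 : IsUnit (1 : MvPowerSeries (Fin n) K) := isUnit_one
          have u2 := two_unit (n := n) (K := K)
          fin_cases i <;> fin_cases j <;> first
            | exact absurd rfl hij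
            | exact absurd rfl hi
            | exact absurd rfl hj
            | (simp only [kk]; simpa using u1)
            | (simp only [kk]; simpa using u2)
            | (simp only [kk]; simpa using u1.neg)
            | (simp only [kk]; simpa using u2.neg)
            | (simp only [kk]; norm_num)
        have h3 : a + kk i * (b * c) ∣ (kk j - kk i) * (b * c) := by
          have h4 : (kk j - kk i) * (b * c) =
              (a + kk j * (b * c)) - (a + kk i * (b * c)) := by ring
          rw [h4]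
          exact dvd_sub hd dvd_rfl
        have h4 : a + kk i * (b * c) ∣ b * c := (h2.dvd_mul_left).1 h3
        rcases (li_not h (kk i)).2.2.2.dvd_or_dvd h4 with h5 | h5
        · exact (li_not h _).1 h5
        · exact (li_not h _).2.1 h5

/-- The critical variety of `a b (a + b c) (a + 2 b c) = 0`. -/
theorem calc10 [CharZero K] (p : Proj n K) {a b c : MvPowerSeries (Fin (n + 1)) K}
    (h : LI ![a, b, c]) (s : ∀ i, Sec p (comps1 a b c 0 i)) :
    LI ![(s 0).pull b, (s 0).pull c] ∧ IsDisc s ((s 0).pull b * (s 0).pull c) := by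
  set B := (s 0).pull b with hB
  set Γ := (s 0).pull c with hΓ
  have hLI : LI ![B, Γ] := by
    have h3 : LI (Fin.cons (comps1 a b c 0 0) ![b, c] :
        Fin 3 → MvPowerSeries (Fin (n + 1)) K) := h
    have h4 := (s 0).LI_pull ![b, c] h3
    have e : (fun i => (s 0).pull ((![b, c] : Fin 2 → MvPowerSeries (Fin (n + 1)) K) i)) =
        ![B, Γ] := by
      funext i
      fin_cases i <;> rfl
    rwa [e] at h4
  have hBm : B ∈ IsLocalRing.maximalIdeal (R1 n K) := hLI.mem 0
  have e0 : (s 0).pull a = 0 := (s 0).pull_self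
  have e1 : (s 1).pull b = 0 := (s 1).pull_self
  have e2 : (s 2).pull a = - ((s 2).pull b * (s 2).pull c) := by
    have h1 : (s 2).pull (a + b * c) = 0 := (s 2).pull_self
    rw [map_add, map_mul] at h1
    exact eq_neg_of_add_eq_zero_left h1
  have p01 : (s 0).pull (comps1 a b c 0 1) = B := rfl
  have p02 : (s 0).pull (comps1 a b c 0 2) = B * Γ := by
    show (s 0).pull (a + b * c) = _
    rw [map_add, map_mul, e0, zero_add]
  have p03 : (s 0).pull (comps1 a b c 0 3) = 2 * (B * Γ) := by
    show (s 0).pull (a + 2 * b * c + b ^ 2 * 0) = _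
    rw [mul_zero, add_zero, map_add, map_mul, map_mul, e0, zero_add, map_ofNat]
    ring
  have q10 : Associated ((s 1).pull (comps1 a b c 0 0)) B := by
    have h1 := (s 1).assoc (s 0)
    have h2 := (s 0).assoc (s 1)
    rw [p01] at h2
    have h3 : Associated ((s 1).r - (s 0).r) ((s 0).r - (s 1).r) := by
      rw [← neg_sub]
      exact (Associated.refl _).neg_left
    exact h1.trans (h3.trans h2.symm)
  have p12 : Associated ((s 1).pull (comps1 a b c 0 2)) B := by
    have h1 : (s 1).pull (comps1 a b c 0 2) = (s 1).pull (comps1 a b c 0 0) := by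
      show (s 1).pull (a + b * c) = (s 1).pull a
      rw [map_add, map_mul, e1, zero_mul, add_zero]
    rw [h1]
    exact q10
  have p13 : Associated ((s 1).pull (comps1 a b c 0 3)) B := by
    have h1 : (s 1).pull (comps1 a b c 0 3) = (s 1).pull (comps1 a b c 0 0) := by
      show (s 1).pull (a + 2 * b * c + b ^ 2 * 0) = (s 1).pull a
      rw [mul_zero, add_zero, map_add, map_mul, map_mul, e1, mul_zero, zero_mul, add_zero]
    rw [h1]
    exact q10
  have q21 : Associated ((s 2).pull b) B := by
    have h1 := (s 2).assoc (s 1)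
    have h2 := (s 1).assoc (s 2)
    have h3 : Associated ((s 2).r - (s 1).r) ((s 1).r - (s 2).r) := by
      rw [← neg_sub]
      exact (Associated.refl _).neg_left
    exact h1.trans (h3.trans (h2.symm.trans p12))
  have q2c : Associated ((s 2).pull c) Γ := by
    obtain ⟨t, ht⟩ := (s 0).pull_sub_dvd (s 2) c
    have h2 := (s 0).assoc (s 2)
    rw [p02] at h2
    have h3 : B * Γ ∣ (s 2).r - (s 0).r := by
      have h4 : B * Γ ∣ (s 0).r - (s 2).r := h2.dvd
      have h5 := (dvd_neg).2 h4
      rwa [neg_sub] at h5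
    obtain ⟨u, hu⟩ := h3
    have h4 : (s 2).pull c = Γ * (1 + B * (u * t)) := by
      rw [hu] at ht
      linear_combination ht
    rw [h4]
    refine associated_mul_unit_left _ _ ?_
    exact Pool.Agent.Helper38.ED.isUnit_one_add (Ideal.mul_mem_right _ _ hBm)
  have p23 : Associated ((s 2).pull (comps1 a b c 0 3)) (B * Γ) := by
    have h1 : (s 2).pull (comps1 a b c 0 3) = (s 2).pull b * (s 2).pull c := by
      show (s 2).pull (a + 2 * b * c + b ^ 2 * 0) = _
      rw [mul_zero, add_zero, map_add, map_mul, map_mul, map_ofNat, e2]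
      ring
    rw [h1]
    exact q21.mul_mul q2c
  have hB1 : Prime B := prime_of_notMem_sq (hLI.mem 0) (hLI.notMem_sq 0)
  have hΓ1 : Prime Γ := prime_of_notMem_sq (hLI.mem 1) (hLI.notMem_sq 1)
  have hBΓ : ¬ B ∣ Γ := hLI.not_dvd
  have hΓB : ¬ Γ ∣ B := by
    have := hLI.comp (![1, 0] : Fin 2 → Fin 2) (by decide)
    have e : (fun i => (![B, Γ] : Fin 2 → _) ((![1, 0] : Fin 2 → Fin 2) i)) = ![Γ, B] := by
      funext i
      fin_cases i <;> rfl
    rw [e] at this
    exact this.not_dvd
  have hrad : Rad (B * Γ) := by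
    have h1 := Pool.Agent.Helper38.ED.Rad.prod ![B, Γ] (fun i => by
      fin_cases i
      · exact hB1
      · exact hΓ1) (fun i j hij => by
      fin_cases i <;> fin_cases j
      · exact absurd rfl hij
      · exact hBΓ
      · exact hΓB
      · exact absurd rfl hij)
    rwa [Fin.prod_univ_two] at h1
  refine ⟨hLI, hrad, fun i j hij => ⟨1, ?_⟩, ⟨1, ?_⟩⟩
  · rw [pow_one]
    have b1 : B ∣ B * Γ := dvd_mul_right _ _
    fin_cases i <;> fin_cases j <;> first
      | exact absurd hij (by decide)
      | skip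
    · exact p01 ▸ b1
    · exact p02 ▸ dvd_rfl
    · show (s 0).pull (comps1 a b c 0 3) ∣ _
      rw [p03]
      obtain ⟨u, hu⟩ := two_unit (n := n) (K := K)
      exact (associated_unit_mul_left (B * Γ) _ (two_unit (n := n) (K := K))).dvd
    · exact p12.dvd.trans b1
    · exact p13.dvd.trans b1
    · exact p23.dvd
  · rw [pow_one]
    have h5 : B * Γ ∣ (s 0).pull (comps1 a b c 0 2) := by rw [p02]
    refine h5.trans ?_
    refine Dvd.dvd.trans ?_ (Finset.dvd_prod_of_mem
      (fun i => ∏ j ∈ Finset.univ.filter (fun j => i < j), (s i).pull (comps1 a b c 0 j))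
      (Finset.mem_univ (0 : Fin 4)))
    exact Finset.dvd_prod_of_mem (fun j => (s 0).pull (comps1 a b c 0 j))
      (Finset.mem_filter.2 ⟨Finset.mem_univ (2 : Fin 4), by decide⟩)

end

section

variable {K : Type} [Field K] [CharZero K] {𝒞 : ProjClass K}

/-- Equisingularity of `a b (a + b c) (a + 2 b c) = 0`. -/
theorem equi_pos10 (h𝒞 : HasLin 𝒞) {f a b c : MvPowerSeries (Fin 4) K} (h : LI ![a, b, c])
    (hf : Associated f (∏ i, comps1 a b c 0 i)) {I : Ideal (MvPowerSeries (Fin 4) K)}
    (hI : CurveIdeal I) (ha : a ∈ I) (hb : b ∈ I) (hc : c ∈ I) : Equi 𝒞 2 4 f I := by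
  have hsm : ∀ i, comps1 a b c 0 i ∈ IsLocalRing.maximalIdeal (MvPowerSeries (Fin 4) K) ∧
      comps1 a b c 0 i ∉ IsLocalRing.maximalIdeal (MvPowerSeries (Fin 4) K) ^ 2 := by
    intro i
    by_cases hi : i = 1
    · subst hi
      exact ⟨h.mem 1, h.notMem_sq 1⟩
    · rw [comps_eq a b c i hi]
      have h1 := li_sub h (kk i)
      exact ⟨h1.mem 0, h1.notMem_sq 0⟩
  obtain ⟨p, ht, hp⟩ := exists_lin (comps1 a b c 0) hsm
  have hs : ∀ i, Nonempty (Sec p (comps1 a b c 0 i)) := fun i =>
    exists_sec p _ (hsm i).1 (ht i)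
  let s : ∀ i, Sec p (comps1 a b c 0 i) := fun i => (hs i).some
  obtain ⟨hLI, hdisc⟩ := calc10 p h s
  have ha0 : comps1 a b c 0 0 ∈ I := ha
  have hI' : CurveIdeal (p.img I) := hI.img (hsm 0).1 ha0 (ht 0)
  refine equi_of_disc h𝒞 p hp (fun i => (hsm i).1) ht hf ha0 hdisc ?_
  refine equi_pos3 h𝒞 hLI ?_ hI' ((s 0).pull_mem_img ha0 hb) ((s 0).pull_mem_img ha0 hc)
  rw [Fin.prod_univ_two]
  exact Associated.refl _

/-- The kernel of `X 4 ↦ s`, `X j ↦ 0` for `j ≠ 4`. -/
theorem curveIdeal_ex : CurveIdeal (exI K) := by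
  classical
  let e : Unit ↪ Fin 5 := ⟨fun _ => 4, fun _ _ _ => rfl⟩
  refine ⟨(killCompl (R := K) e : MvPowerSeries (Fin 5) K →ₐ[K] MvPowerSeries Unit K), ?_,
    X 4, (mem_maximalIdeal_iff_constantCoeff _).2 (constantCoeff_X _), ?_⟩
  · have hI : exI K = coordIdeal K (Finset.univ.erase 4) := by
      have h1 : (X '' ((Finset.univ.erase 4 : Finset (Fin 5)) : Set (Fin 5)) :
          Set (MvPowerSeries (Fin 5) K)) = {X 0, X 1, X 2, X 3} := by
        have h2 : (Finset.univ.erase 4 : Finset (Fin 5)) = {0, 1, 2, 3} := by decide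
        rw [h2]
        simp only [Finset.coe_insert, Finset.coe_singleton, Set.image_insert_eq,
          Set.image_singleton]
      unfold exI
      rw [← h1]
    rw [hI]
    ext p
    have h1 := mem_coordIdeal_pow_iff (K := K) (Finset.univ.erase 4 : Finset (Fin 5)) 1 p
    rw [pow_one] at h1
    rw [h1, RingHom.mem_ker]
    constructor
    · intro h α hα
      have h2 : ∀ i ∈ (Finset.univ.erase 4 : Finset (Fin 5)), α i = 0 := by
        have h3 : (∑ i ∈ (Finset.univ.erase 4 : Finset (Fin 5)), α i) = 0 := by omega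
        exact Finset.sum_eq_zero_iff.1 h3
      have h3 : α ∈ Set.range (Finsupp.embDomain (M := ℕ) e) := by
        rw [Finsupp.mem_range_embDomain_iff]
        intro i hi
        rw [Finset.mem_coe, Finsupp.mem_support_iff] at hi
        by_contra h5
        apply hi
        apply h2 i
        rw [Finset.mem_erase]
        refine ⟨fun h6 => h5 ⟨(), h6.symm⟩, Finset.mem_univ _⟩
      obtain ⟨x, hx⟩ := h3
      have h4 := coeff_killCompl (e := e) p x
      rw [← hx, ← h4]
      have h5 : (killCompl (R := K) e) p = 0 := h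
      rw [h5, map_zero]
    · intro h
      change (killCompl (R := K) e) p = 0
      refine MvPowerSeries.ext fun x => ?_
      rw [coeff_killCompl, map_zero]
      apply h
      have h2 : (∑ i ∈ (Finset.univ.erase 4 : Finset (Fin 5)), (Finsupp.embDomain e x) i) = 0 := by
        refine Finset.sum_eq_zero fun i hi => ?_
        apply Finsupp.embDomain_of_notMem_range
        rintro ⟨j, hj⟩
        have hj' : (4 : Fin 5) = i := hj
        rw [Finset.mem_erase] at hi
        exact hi.1 hj'.symm
      omega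
  · intro h
    have h1 : (killCompl (R := K) e) (X (e ())) = X () := killCompl_X ()
    have h2 : (X () : MvPowerSeries Unit K) = 0 := by
      rw [← h1]
      exact h
    have h3 := congrArg (coeff (Finsupp.single () 1)) h2
    rw [coeff_index_single_self_X, map_zero] at h3
    exact one_ne_zero h3

/-- `V` is equisingular along `W`. -/
theorem equi_ex (h𝒞 : HasLin 𝒞) : Equi 𝒞 3 5 (exF K) (exI K) := by
  let p : Proj 4 K := ⟨finSuccEquiv K 4⟩
  have h0 : p.σ (X 0) = PowerSeries.X := finSuccEquiv_X_zero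
  have hX : ∀ i : Fin 4, p.σ (X i.succ) = PowerSeries.C (X i) := fun i => finSuccEquiv_X_succ i
  have hsymm : ∀ i : Fin 4, p.σ.symm (PowerSeries.C (X i)) = X i.succ := fun i => by
    rw [← hX, AlgEquiv.symm_apply_apply]
  have hgood := good_ex (K := K)
  have he := fun i => (hgood.comps_mem i).1
  have ht0 : p.tr (X 0) = 1 := by
    unfold Proj.tr
    rw [h0, PowerSeries.coeff_one_X, map_one]
  have ht : ∀ i, p.tr (comps0 (X 0) (X 1) (X 2) (X 3) 0 (X 4) i) ≠ 0 := fun i => by
    rw [tr_comps, ht0]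
    exact one_ne_zero
  have hs : ∀ i, Nonempty (Sec p (comps0 (X 0) (X 1) (X 2) (X 3) 0 (X 4) i)) := fun i =>
    exists_sec p _ (he i) (ht i)
  let s : ∀ i, Sec p (comps0 (X 0) (X 1) (X 2) (X 3) 0 (X 4) i) := fun i => (hs i).some
  have hpull : ∀ (j : Fin 6) (i : Fin 4), (s j).pull (X i.succ) = X i := fun j i => by
    rw [Sec.pull_apply, ex_eq, hX, Sec.ε_C]
  have hli : LI (![X 0, X 1, X 2] : Fin 3 → R1 4 K) := by
    refine ⟨fun i => by fin_cases i <;> exact constantCoeff_X _, ?_⟩
    have h1 : (fun i => fun j : Fin 4 => coeff (Finsupp.single j 1)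
        ((![X 0, X 1, X 2] : Fin 3 → R1 4 K) i)) =
        (Pi.basisFun K (Fin 4)) ∘ (![0, 1, 2] : Fin 3 → Fin 4) := by
      funext i j
      have h2 : (![X 0, X 1, X 2] : Fin 3 → R1 4 K) i = X ((![0, 1, 2] : Fin 3 → Fin 4) i) := by
        fin_cases i <;> rfl
      rw [h2, Function.comp_apply, Pi.basisFun_apply]
      by_cases h : j = (![0, 1, 2] : Fin 3 → Fin 4) i
      · subst h
        rw [coeff_index_single_self_X, Pi.single_eq_same]
      · rw [Pi.single_eq_of_ne h, coeff_index_single_X, if_neg h]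
    rw [h1]
    exact (Pi.basisFun K (Fin 4)).linearIndependent.comp _ (by decide)
  have e1 : (s 0).pull (X 1) = X 0 := hpull 0 0
  have e2 : (s 0).pull (X 2) = X 1 := hpull 0 1
  have hrad : Rad (∏ i, comps1 ((s 0).pull (X 1)) ((s 0).pull (X 2)) (X 2 : R1 4 K) 0 i) := by
    rw [e1, e2]
    exact rad10 hli
  have hdisc := hgood.isDisc p s (c := X 2) (d := 0) (by
      rw [map_add, map_mul, e1, e2]
      have a1 : (s 2).pull (X 1) = X 0 := hpull 2 0
      have a2 : (s 2).pull (X 2) = X 1 := hpull 2 1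
      have a3 : (s 2).pull (X 3) = X 2 := hpull 2 2
      rw [a1, a2, a3]) (by
      rw [zero_mul, add_zero, mul_zero, add_zero, map_add, map_mul, map_mul, map_ofNat, e1, e2]
      have a1 : (s 4).pull (X 1) = X 0 := hpull 4 0
      have a2 : (s 4).pull (X 2) = X 1 := hpull 4 1
      have a3 : (s 4).pull (X 3) = X 2 := hpull 4 2
      rw [a1, a2, a3]) hrad
  rw [e1, e2] at hdisc
  have mem : ∀ i : Fin 4, i ≠ 3 → (X i : R1 4 K) ∈ p.img (exI K) := by
    intro i hi
    have h1 : (X i : R1 4 K) ∈ p.img (exI K) ↔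
      PowerSeries.C (X i) ∈ Ideal.map p.σ (exI K) := Iff.rfl
    rw [h1, ← hX]
    refine Ideal.mem_map_of_mem _ (mem_exI _ ?_)
    intro h2
    apply hi
    fin_cases i <;> first | rfl | exact absurd h2 (by decide)
  have hz : comps0 (X 0) (X 1) (X 2) (X 3) 0 (X 4) 0 ∈ exI K := mem_exI 0 (by decide)
  have hcurve : CurveIdeal (p.img (exI K)) :=
    CurveIdeal.img curveIdeal_ex (he 0) hz (ht 0)
  refine equi_of_disc h𝒞 p (fun i => ?_) he ht ?_ (i₀ := 0) hz hdisc
    (equi_pos10 h𝒞 hli (Associated.refl _) hcurve (mem 0 (by decide)) (mem 1 (by decide))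
      (mem 2 (by decide)))
  · rw [hsymm]
    refine ⟨Pi.single i.succ 1, ?_⟩
    rw [Finset.sum_eq_single i.succ]
    · rw [Pi.single_eq_same, map_one, one_mul]
    · intro j _ hj
      rw [Pi.single_eq_of_ne hj, map_zero, zero_mul]
    · intro h7
      exact absurd (Finset.mem_univ _) h7
  · rw [exF_eq]

end

end Pool.Agent.Helper80.R3
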