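import Pool.Agent.Helper80.R3.Example
import Pool.Agent.Helper38.GP.ExProps
import Pool.Agent.Helper38.GP.ExRad

/-! Elementary properties of the example. -/

namespace Pool.Agent.Helper80.R3

open MvPowerSeries Pool.Agent.Helper38 Pool.Agent.Helper38.EQ
open Pool.Agent.Helper38.GP hiding exM exF exI exF_convergent exI_smooth exF_sing exF_radical

/-- the power series that are polynomials -/
private noncomputable def Props_S (n : ℕ) : Subring (MvPowerSeries (Fin n) ℂ) :=
  (MvPolynomial.coeToMvPowerSeries.ringHom :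
    MvPolynomial (Fin n) ℂ →+* MvPowerSeries (Fin n) ℂ).range

private theorem Props_conv {n : ℕ} {h : MvPowerSeries (Fin n) ℂ} (hh : h ∈ Props_S n) :
    IsConvergent h := by
  obtain ⟨P, rfl⟩ := hh
  refine isConvergent_of_finite (P.support.finite_toSet.subset fun ν hν => ?_)
  have h1 : coeff ν (MvPolynomial.coeToMvPowerSeries.ringHom P : MvPowerSeries (Fin n) ℂ) =
      MvPolynomial.coeff ν P := MvPolynomial.coeff_coe P ν
  have h2 : coeff ν (MvPolynomial.coeToMvPowerSeries.ringHom P : MvPowerSeries (Fin n) ℂ) ≠ 0 :=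
    hν
  rw [h1] at h2
  exact Finset.mem_coe.2 (MvPolynomial.mem_support_iff.2 h2)

private theorem Props_X {n : ℕ} (j : Fin n) : (X j : MvPowerSeries (Fin n) ℂ) ∈ Props_S n :=
  ⟨MvPolynomial.X j, MvPolynomial.coe_X j⟩

private theorem Props_two {n : ℕ} : (2 : MvPowerSeries (Fin n) ℂ) ∈ Props_S n := by
  have h : (2 : MvPowerSeries (Fin n) ℂ) = 1 + 1 := by norm_num
  rw [h]
  exact add_mem (one_mem _) (one_mem _)

theorem exF_convergent : IsConvergent (exF ℂ) := by
  refine Props_conv (Subring.prod_mem _ fun i _ => ?_)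
  refine sub_mem (Props_X 0) (mul_mem (pow_mem (Props_X 2) 2) ?_)
  have X1 := Props_X (n := 5) 1
  have X2 := Props_X (n := 5) 2
  have X3 := Props_X (n := 5) 3
  have X4 := Props_X (n := 5) 4
  have h2 := Props_two (n := 5)
  have h1 := one_mem (Props_S 5)
  fin_cases i
  · exact zero_mem _
  · exact X1
  · exact h1
  · exact add_mem h1 (add_mem X1 (mul_mem X2 X3))
  · exact add_mem h2 X4
  · exact add_mem (add_mem h2 X4) (add_mem X1 (mul_mem (mul_mem h2 X2) X3))

/-- the indices of the equations of `W` -/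
private def Props_idx : Fin 4 → Fin 5 := ![0, 1, 2, 3]

private theorem Props_inj : Function.Injective Props_idx := by decide

theorem exI_smooth {K : Type} [Field K] : IsSmoothGerm 4 (exI K) := by
  refine ⟨fun i => X (Props_idx i), ⟨fun i => constantCoeff_X _, ?_⟩, ?_⟩
  · have h1 : (fun i => fun j : Fin 5 => coeff (Finsupp.single j 1)
        (X (Props_idx i) : MvPowerSeries (Fin 5) K)) =
        (Pi.basisFun K (Fin 5)) ∘ Props_idx := by
      funext i j
      rw [Function.comp_apply, Pi.basisFun_apply, coeff_X]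
      by_cases h : j = Props_idx i
      · subst h
        rw [if_pos rfl, Pi.single_eq_same]
      · rw [Pi.single_eq_of_ne h, if_neg]
        intro h2
        exact h (Finsupp.single_left_injective one_ne_zero h2)
    rw [h1]
    exact (Pi.basisFun K (Fin 5)).linearIndependent.comp _ Props_inj
  · unfold exI
    congr 1
    ext x
    simp only [Set.mem_insert_iff, Set.mem_singleton_iff, Set.mem_range]
    constructor
    · rintro (rfl | rfl | rfl | rfl)
      · exact ⟨0, rfl⟩
      · exact ⟨1, rfl⟩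
      · exact ⟨2, rfl⟩
      · exact ⟨3, rfl⟩
    · rintro ⟨i, rfl⟩
      fin_cases i
      · left; rfl
      · right; left; rfl
      · right; right; left; rfl
      · right; right; right; rfl

theorem exF_sing {K : Type} [Field K] : singIdeal (exF K) ≤ exI K := by
  refine singIdeal_le_of_mem_sq _ _ ?_
  have hX0 : (X 0 : MvPowerSeries (Fin 5) K) ∈ exI K :=
    Ideal.subset_span (by simp)
  have hX2 : (X 2 : MvPowerSeries (Fin 5) K) ∈ exI K :=
    Ideal.subset_span (by simp)
  have hfac : ∀ i, (X 0 - X 2 ^ 2 * exM K i : MvPowerSeries (Fin 5) K) ∈ exI K := by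
    intro i
    refine Ideal.sub_mem _ hX0 (Ideal.mul_mem_right _ _ ?_)
    rw [pow_two]
    exact Ideal.mul_mem_left _ _ hX2
  have h1 : exF K = ((X 0 - X 2 ^ 2 * exM K 0) * (X 0 - X 2 ^ 2 * exM K 1)) *
      ∏ i : Fin 4, (X 0 - X 2 ^ 2 * exM K i.succ.succ) := by
    unfold exF
    rw [Fin.prod_univ_succ, Fin.prod_univ_succ, mul_assoc]
    rfl
  rw [h1, pow_two]
  exact Ideal.mul_mem_right _ _ (Ideal.mul_mem_mul (hfac 0) (hfac 1))

private theorem Rad_coeff_sq {K : Type} [Field K] (m : MvPowerSeries (Fin 5) K) (k : Fin 5) :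
    coeff (Finsupp.single k 1) (X 2 ^ 2 * m) = 0 := by
  have h : (X 2 ^ 2 * m : MvPowerSeries (Fin 5) K) = (X 2 * m) * X 2 := by ring
  rw [h, ED.LIBasic_coeff_mul _ _ (constantCoeff_X _), map_mul, constantCoeff_X, zero_mul,
    zero_mul]

private theorem Rad_const {K : Type} [Field K] (m : MvPowerSeries (Fin 5) K) :
    constantCoeff (X 0 - X 2 ^ 2 * m : MvPowerSeries (Fin 5) K) = 0 := by
  simp

private theorem Rad_single {K : Type} [Field K] (k l : Fin 5) :
    coeff (Finsupp.single k 1) (X l : MvPowerSeries (Fin 5) K) = if k = l then 1 else 0 := by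
  rw [coeff_X]
  by_cases h : k = l
  · rw [if_pos h, if_pos (by rw [h])]
  · rw [if_neg h, if_neg]
    intro h2
    exact h (Finsupp.single_left_injective one_ne_zero h2)

private theorem Rad_dvd {K : Type} [Field K] {m g : MvPowerSeries (Fin 5) K}
    (h : (X 0 - X 2 ^ 2 * m) ∣ g) :
    constantCoeff g = 0 ∧ ∀ k, k ≠ 0 → coeff (Finsupp.single k 1) g = 0 := by
  obtain ⟨q, rfl⟩ := h
  refine ⟨by rw [map_mul, Rad_const, zero_mul], fun k hk => ?_⟩
  rw [mul_comm, ED.LIBasic_coeff_mul _ _ (Rad_const m), map_sub, Rad_coeff_sq, Rad_single,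
    if_neg hk, sub_zero, mul_zero]

private theorem Rad_prime {K : Type} [Field K] (m : MvPowerSeries (Fin 5) K) :
    Prime (X 0 - X 2 ^ 2 * m : MvPowerSeries (Fin 5) K) := by
  refine ED.prime_of_notMem_sq ((mem_maximalIdeal_iff_constantCoeff _).2 (Rad_const m)) ?_
  intro h
  have h1 := ((ED.LIBasic1_mem_sq_iff _).1 h).2 0
  rw [map_sub, Rad_coeff_sq, Rad_single, if_pos rfl, sub_zero] at h1
  exact one_ne_zero h1

private theorem Rad_cons {K : Type} [Field K] (i : Fin 6) :
    constantCoeff (exM K i) = ![0, 0, 1, 1, 2, 2] i ∧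
      coeff (Finsupp.single 1 1) (exM K i) = ![0, 1, 0, 1, 0, 1] i := by
  have hC : ∀ (a : K), coeff (Finsupp.single 1 1) (C a : MvPowerSeries (Fin 5) K) = 0 := by
    intro a
    rw [coeff_C, if_neg]
    intro h
    have := congrArg (fun f : Fin 5 →₀ ℕ => f 1) h
    simp at this
  have h1 : coeff (Finsupp.single 1 1) (1 : MvPowerSeries (Fin 5) K) = 0 := by
    have := hC 1
    rwa [map_one] at this
  have h2 : coeff (Finsupp.single 1 1) (2 : MvPowerSeries (Fin 5) K) = 0 := by
    have := hC 2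
    rwa [map_ofNat] at this
  have h3 : coeff (Finsupp.single 1 1) (X 2 * X 3 : MvPowerSeries (Fin 5) K) = 0 := by
    rw [ED.LIBasic_coeff_mul _ _ (constantCoeff_X _), constantCoeff_X, zero_mul]
  have h4 : coeff (Finsupp.single 1 1) (2 * X 2 * X 3 : MvPowerSeries (Fin 5) K) = 0 := by
    rw [ED.LIBasic_coeff_mul _ _ (constantCoeff_X _), map_mul, constantCoeff_X, mul_zero, zero_mul]
  have h6 : constantCoeff (2 : MvPowerSeries (Fin 5) K) = 2 := map_ofNat _ 2
  fin_cases i
  · simp [exM]
  · simp [exM]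
  · simp [exM, h1]
  · simp [exM, h1, h3]
  · simp [exM, h2, h6, Rad_single]
  · simp [exM, h2, h4, h6, Rad_single]

/-- The six factors are prime and pairwise nonassociated. -/
theorem exF_radical {K : Type} [Field K] [CharZero K] : (Ideal.span {exF K}).IsRadical := by
  have hrad : ED.Rad (exF K) := by
    refine ED.Rad.prod _ (fun i => Rad_prime _) ?_
    intro i j hij hdvd
    have h1 : (X 0 - X 2 ^ 2 * exM K i) ∣ X 2 ^ 2 * (exM K i - exM K j) := by
      have h2 : (X 2 ^ 2 * (exM K i - exM K j) : MvPowerSeries (Fin 5) K) =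
          (X 0 - X 2 ^ 2 * exM K j) - (X 0 - X 2 ^ 2 * exM K i) := by ring
      rw [h2]
      exact dvd_sub hdvd dvd_rfl
    rcases (Rad_prime (exM K i)).dvd_or_dvd h1 with h2 | h2
    · have h3 := (Rad_dvd ((Rad_prime (exM K i)).dvd_of_dvd_pow h2)).2 2 (by decide)
      rw [Rad_single, if_pos rfl] at h3
      exact one_ne_zero h3
    · obtain ⟨h3, h4⟩ := Rad_dvd h2
      have h5 := h4 1 (by decide)
      rw [map_sub, (Rad_cons i).1, (Rad_cons j).1] at h3
      rw [map_sub, (Rad_cons i).2, (Rad_cons j).2] at h5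
      apply hij
      fin_cases i <;> fin_cases j <;> simp at h3 h5 ⊢ <;> norm_num at h3
  intro x hx
  obtain ⟨N, hN⟩ := Ideal.mem_radical_iff.1 hx
  exact Ideal.mem_span_singleton.2 (hrad x N (Ideal.mem_span_singleton.1 hN))

end Pool.Agent.Helper80.R3
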