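import Pool.Agent.Helper80.R3.Neg
import Pool.Agent.Helper80.R3.Pos
import Pool.Agent.Helper80.R3.Props
import Pool.Agent.Helper38.GP.Final
import Pool.Agent.Helper85.R2.Arc
import Pool.Agent.Helper85.R2.Gen

/-! The final statement for the six smooth sheets in `5`-space. -/

namespace Pool.Agent.Helper80.R3

open MvPowerSeries Pool.Agent.Helper38.EQ
open Pool.Agent.Helper38.GP hiding exM exF exI neg_ex generic_ex good_proj_ex equi_ex
  exF_convergent exF_radical exI_smooth exF_sing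
open Pool.Agent.Helper38.ED (comps0)

/-- The projections with a direction that has a nonzero component `0` are permissible for `W` and
transversal, and the `z_i` form a set of parameters, if their linear parts are independent. -/
theorem good_proj_ex {K : Type} [Field K] [IsAlgClosed K] [CharZero K]
    (z : Fin 4 → MvPowerSeries (Fin 5) K) (hz : LinIndep z) {v : Fin 5 → K}
    (hv : ∀ i, lin (z i) v = 0) (hv0 : v 0 ≠ 0) :
    IsParams (exF K) z ∧ Permissible (exI K) z ∧ Transversal (exF K) z := by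
  classical
  obtain ⟨p, hp⟩ := exists_proj_of_linIndep z hz
  have hzp : z = fun i => p.σ.symm (PowerSeries.C (X i)) := by
    funext i
    rw [← hp i, AlgEquiv.symm_apply_apply]
  obtain ⟨c, hc, hcv⟩ := Pool.Agent.Helper85.R2.exists_smul_tr z hz p hp hv
    (fun h => hv0 (congrFun h 0))
  have htr0 : p.tr (X 0) ≠ 0 := by
    rw [hcv]
    exact mul_ne_zero hc hv0
  have he := fun i => (good_ex (K := K)).comps_mem i
  have hte : ∀ i, p.tr (comps0 (X 0) (X 1) (X 2) (X 3) 0 (X 4) i) ≠ 0 := fun i => by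
    rw [tr_comps]
    exact htr0
  have hf : Associated (exF K) (∏ i, comps0 (X 0) (X 1) (X 2) (X 3) 0 (X 4) i) :=
    Associated.of_eq exF_eq
  rw [hzp]
  exact ⟨isParams_of_tr p (fun i => (he i).1) hte (by norm_num) hf,
    permissible_of_tr p (h := X 0) (mem_exI 0 (by decide)) htr0,
    transversal_of_tr p (fun i => (he i).1) hte hf⟩

/-- For almost all convergent projections: not equisingular. -/
theorem generic_ex (G : MvPolynomial (Fin 4 × {ν : Fin 5 →₀ ℕ // ν ≠ 0}) ℂ) (hG : G ≠ 0) :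
    ∃ z : Fin 4 → MvPowerSeries (Fin 5) ℂ,
      (∀ i, IsConvergent (z i) ∧ constantCoeff (z i) = 0) ∧
      MvPolynomial.eval (fun p => coeff p.2.1 (z p.1)) G ≠ 0 ∧
      IsParams (exF ℂ) z ∧ Permissible (exI ℂ) z ∧ Transversal (exF ℂ) z ∧
      ¬ EquiProj (Formal ℂ) 2 (exF ℂ) (exI ℂ) z ∧
      ¬ EquiProj Convergent 2 (exF ℂ) (exI ℂ) z := by
  obtain ⟨z, v, h1, h2, h3, h4, h5, h6⟩ := Pool.Agent.Helper85.R2.exists_generic_of (n := 3) G hG
    (MvPolynomial.X 1) (MvPolynomial.X_ne_zero 1)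
  rw [MvPolynomial.eval_X] at h6
  obtain ⟨h7, h8, h9⟩ := good_proj_ex z h3 h4 h5
  exact ⟨z, h1, h2, h7, h8, h9, neg_ex z h4 h5 h6, neg_ex z h4 h5 h6⟩

/-- The final statement. -/
theorem final :
    (IsConvergent (exF ℂ) ∧ (Ideal.span {exF ℂ}).IsRadical ∧ IsSmoothGerm 4 (exI ℂ) ∧
      singIdeal (exF ℂ) ≤ exI ℂ) ∧
    (Equi Convergent 3 5 (exF ℂ) (exI ℂ) ∧ Equi (LinearTransversal ℂ) 3 5 (exF ℂ) (exI ℂ)) ∧
    (∀ (z : Fin 4 → MvPowerSeries (Fin 5) ℂ) (v : Fin 5 → ℂ), LinIndep z →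
      (∀ i, lin (z i) v = 0) → v 0 ≠ 0 → v 1 ≠ 0 →
        (IsParams (exF ℂ) z ∧ Permissible (exI ℂ) z ∧ Transversal (exF ℂ) z) ∧
        ¬ EquiProj (Formal ℂ) 2 (exF ℂ) (exI ℂ) z) ∧
    ∀ G : MvPolynomial (Fin 4 × {ν : Fin 5 →₀ ℕ // ν ≠ 0}) ℂ, G ≠ 0 →
      ∃ z : Fin 4 → MvPowerSeries (Fin 5) ℂ,
        (∀ i, IsConvergent (z i) ∧ constantCoeff (z i) = 0) ∧
        MvPolynomial.eval (fun p => coeff p.2.1 (z p.1)) G ≠ 0 ∧
        IsParams (exF ℂ) z ∧ Permissible (exI ℂ) z ∧ Transversal (exF ℂ) z ∧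
        ¬ EquiProj (Formal ℂ) 2 (exF ℂ) (exI ℂ) z ∧
        ¬ EquiProj Convergent 2 (exF ℂ) (exI ℂ) z :=
  ⟨⟨exF_convergent, exF_radical, exI_smooth, exF_sing⟩,
    ⟨equi_ex hasLin_convergent, equi_ex (hasLin_linear ℂ)⟩,
    fun z _ hz hv h0 h1 => ⟨good_proj_ex z hz hv h0, neg_ex z hv h0 h1⟩,
    generic_ex⟩

end Pool.Agent.Helper80.R3
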