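import Pool.Agent.Helper80.R3.Calc
import Pool.Agent.Helper80.R3.Example
import Pool.Agent.Helper38.GP.Star
import Pool.Agent.Helper38.GP.CurveA
import Pool.Agent.Helper85.R2.Arc

/-! The projections with a direction that has nonzero components `0` and `1` are not
equisingular. -/

namespace Pool.Agent.Helper80.R3

open MvPowerSeries Pool.Agent.Helper38.EQ
open Pool.Agent.Helper38.GP hiding exM exF exI
open Pool.Agent.Helper38.ED (LI comps0 comps1)

private theorem Neg_tr_mul {n : ℕ} {K : Type} [Field K] (p : Proj n K)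
    (h k : MvPowerSeries (Fin (n + 1)) K) :
    p.tr (h * k) = constantCoeff (PowerSeries.coeff 0 (p.σ h)) * p.tr k +
      p.tr h * constantCoeff (PowerSeries.coeff 0 (p.σ k)) := by
  unfold Proj.tr
  rw [map_mul, PowerSeries.coeff_mul,
    show Finset.HasAntidiagonal.antidiagonal 1 = {((0 : ℕ), (1 : ℕ)), (1, 0)} from rfl,
    Finset.sum_pair (by decide), map_add, map_mul, map_mul]

private theorem Neg_cc {n : ℕ} {K : Type} [Field K] (p : Proj n K)
    (x : MvPowerSeries (Fin (n + 1)) K)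
    (hx : x ∈ IsLocalRing.maximalIdeal (MvPowerSeries (Fin (n + 1)) K)) :
    constantCoeff (PowerSeries.coeff 0 (p.σ x)) = 0 := by
  by_contra hcon
  have h1 : IsUnit (p.σ x) := by
    rw [PowerSeries.isUnit_iff_constantCoeff, MvPowerSeries.isUnit_iff_constantCoeff]
    rw [PowerSeries.coeff_zero_eq_constantCoeff_apply] at hcon
    exact isUnit_iff_ne_zero.mpr hcon
  have h2 := h1.map p.σ.symm
  rw [AlgEquiv.symm_apply_apply] at h2
  exact (IsLocalRing.mem_maximalIdeal _).mp hx h2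

theorem X_mem {n : ℕ} {K : Type} [Field K] (i : Fin n) :
    (X i : MvPowerSeries (Fin n) K) ∈ IsLocalRing.maximalIdeal (MvPowerSeries (Fin n) K) := by
  rw [mem_maximalIdeal_iff_constantCoeff, constantCoeff_X]

theorem mem_exI {K : Type} [Field K] (i : Fin 5) (hi : i ≠ 4) :
    (X i : MvPowerSeries (Fin 5) K) ∈ exI K := by
  rw [exI]
  apply Ideal.subset_span
  fin_cases i
  · exact Or.inl rfl
  · exact Or.inr (Or.inl rfl)
  · exact Or.inr (Or.inr (Or.inl rfl))
  · exact Or.inr (Or.inr (Or.inr rfl))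
  · exact absurd rfl hi

private theorem Neg_notMem {K : Type} [Field K] :
    (X 4 : MvPowerSeries (Fin 5) K) ∉ exI K := by
  obtain ⟨γ, hγ, -⟩ := exists_monomial_arc (K := K) (n := 5)
    (fun i => if i = 4 then 1 else 0) (fun _ => 1) (fun _ => le_refl 1)
  have h1 : exI K ≤ RingHom.ker γ := by
    rw [exI, Ideal.span_le]
    intro x hx
    rw [SetLike.mem_coe, RingHom.mem_ker]
    simp only [Set.mem_insert_iff, Set.mem_singleton_iff] at hx
    rcases hx with rfl | rfl | rfl | rfl <;>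
      · rw [hγ, if_neg (by decide), map_zero, zero_mul]
  intro h2
  have h3 := h1 h2
  rw [RingHom.mem_ker, hγ, if_pos rfl, map_one, one_mul, pow_one] at h3
  exact PowerSeries.X_ne_zero h3

private theorem Neg_trsub {K : Type} [Field K] (p : Proj 4 K) (m : MvPowerSeries (Fin 5) K) :
    p.tr (X 0 - X 2 ^ 2 * m) = p.tr (X 0) := by
  have h1 : p.tr (X 2 ^ 2 * m) = 0 := by
    rw [pow_two, mul_assoc, Neg_tr_mul, Neg_cc p _ (X_mem 2),
      Neg_cc p _ (Ideal.mul_mem_right _ _ (X_mem 2)), zero_mul, mul_zero, add_zero]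
  have h2 := p.tr_add (X 0 - X 2 ^ 2 * m) (X 2 ^ 2 * m)
  rw [sub_add_cancel, h1, add_zero] at h2
  exact h2.symm

theorem tr_comps {K : Type} [Field K] (p : Proj 4 K) (i : Fin 6) :
    p.tr (comps0 (X 0) (X 1) (X 2) (X 3) 0 (X 4) i) = p.tr (X 0) := by
  have key : ∃ m, comps0 (X 0) (X 1) (X 2) (X 3) 0 (X 4) i =
      (X 0 - X 2 ^ 2 * m : MvPowerSeries (Fin 5) K) := by
    fin_cases i
    · exact ⟨0, (by rw [mul_zero, sub_zero]; rfl)⟩
    · exact ⟨_, rfl⟩
    · exact ⟨1, (by rw [mul_one]; rfl)⟩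
    · exact ⟨_, rfl⟩
    · exact ⟨_, rfl⟩
    · exact ⟨_, rfl⟩
  obtain ⟨m, hm⟩ := key
  rw [hm, Neg_trsub]

private theorem Neg_unit {n : ℕ} {K : Type} [Field K] {p : Proj n K}
    {e x : MvPowerSeries (Fin (n + 1)) K} (s : Sec p e) {q : PowerSeries (R1 n K)} {w : R1 n K}
    (hx : p.σ (ex x) = PowerSeries.C (s.pull x) + (PowerSeries.X - PowerSeries.C s.r) * q)
    (hw : w * s.ε s.U = s.ε q) (ht : p.tr x ≠ 0) : IsUnit w := by
  have hr0 : constantCoeff s.r = 0 := (mem_maximalIdeal_iff_constantCoeff _).mp s.r_mem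
  have hq1 : PowerSeries.coeff 1 (PowerSeries.X * q) = PowerSeries.constantCoeff q := by
    have := PowerSeries.coeff_succ_X_mul 0 q
    rwa [PowerSeries.coeff_zero_eq_constantCoeff_apply] at this
  have h2 : PowerSeries.coeff 1 (p.σ x) =
      PowerSeries.constantCoeff q - s.r * PowerSeries.coeff 1 q := by
    rw [← ex_eq x, hx, map_add, PowerSeries.coeff_C, if_neg one_ne_zero, zero_add,
      sub_mul, map_sub, PowerSeries.coeff_C_mul, hq1]
  have h1 : p.tr x = constantCoeff (PowerSeries.constantCoeff q) := by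
    rw [Proj.tr, h2, map_sub, map_mul, hr0, zero_mul, sub_zero]
  obtain ⟨q', hq'⟩ := s.ε_dvd q
  have h3 : constantCoeff (PowerSeries.constantCoeff q) = constantCoeff (s.ε q) := by
    conv_lhs => rw [hq']
    rw [map_add, map_mul, map_sub, PowerSeries.constantCoeff_C, PowerSeries.constantCoeff_C,
      PowerSeries.constantCoeff_X, map_add, map_mul, map_sub, hr0, map_zero, sub_zero, zero_mul,
      add_zero]
  have h4 : constantCoeff w * constantCoeff (s.ε s.U) ≠ 0 := by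
    rw [← map_mul, hw, ← h3, ← h1]
    exact ht
  rw [MvPowerSeries.isUnit_iff_constantCoeff]
  exact isUnit_iff_ne_zero.mpr (left_ne_zero_of_mul h4)

theorem li_X {K : Type} [Field K] :
    LI (![X 0, X 1, X 2, X 3, X 4] : Fin 5 → MvPowerSeries (Fin 5) K) := by
  refine ⟨fun i => ?_, ?_⟩
  · fin_cases i <;> exact constantCoeff_X _
  · have h1 : (fun i => fun j : Fin 5 => coeff (Finsupp.single j 1)
        ((![X 0, X 1, X 2, X 3, X 4] : Fin 5 → MvPowerSeries (Fin 5) K) i)) =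
        Pi.basisFun K (Fin 5) := by
      funext i j
      have h2 : (![X 0, X 1, X 2, X 3, X 4] : Fin 5 → MvPowerSeries (Fin 5) K) i = X i := by
        fin_cases i <;> rfl
      rw [h2, Pi.basisFun_apply]
      by_cases h : j = i
      · subst h
        rw [coeff_index_single_self_X, Pi.single_eq_same]
      · rw [Pi.single_eq_of_ne h, coeff_index_single_X, if_neg h]
    rw [h1]
    exact (Pi.basisFun K (Fin 5)).linearIndependent

theorem good_ex {K : Type} [Field K] :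
    GoodR (m := 4) (K := K) (X 0) (X 1) (X 2) (X 3) (X 4) :=
  ⟨X_mem _, li_X.notMem_sq 0, X_mem _, X_mem _, X_mem _, X_mem _⟩

theorem exF_eq {K : Type} [Field K] :
    exF K = ∏ i, comps0 (X 0) (X 1) (X 2) (X 3) 0 (X 4) i := by
  unfold exF
  rw [Fin.prod_univ_six, Fin.prod_univ_six]
  change (X 0 - X 2 ^ 2 * (0 : MvPowerSeries (Fin 5) K)) * (X 0 - X 2 ^ 2 * X 1) *
    (X 0 - X 2 ^ 2 * 1) * (X 0 - X 2 ^ 2 * (1 + (X 1 + X 2 * X 3))) *
    (X 0 - X 2 ^ 2 * (2 + X 4)) *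
    (X 0 - X 2 ^ 2 * (2 + X 4 + (X 1 + 2 * X 2 * X 3))) =
    X 0 * (X 0 - X 2 ^ 2 * X 1) * (X 0 - X 2 ^ 2) * (X 0 - X 2 ^ 2 * (1 + X 1 + X 2 * X 3)) *
    (X 0 - X 2 ^ 2 * (2 + X 4)) *
    (X 0 - X 2 ^ 2 * (2 + X 4 + X 1 + 2 * X 2 * X 3 + 0 * X 2 ^ 2))
  ring

/-- The main computation. -/
private theorem Neg_main {K : Type} [Field K] [IsAlgClosed K] [CharZero K] {𝒞 : ProjClass K}
    (p : Proj 4 K) (h0 : p.tr (X 0) ≠ 0) (h1 : p.tr (X 1) ≠ 0)
    {F : Polynomial (R1 4 K)} {U : PowerSeries (R1 4 K)}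
    (hU : (p.σ (ex (exF K))).IsWeierstrassFactorization F U) {g : R1 4 K}
    (hg : Ideal.span {g} = (Ideal.span {F.discr}).radical)
    (hE : Equi 𝒞 2 4 g (p.img (exI K))) : False := by
  have hgood := good_ex (K := K)
  let s : ∀ i, Sec p (comps0 (X 0) (X 1) (X 2) (X 3) 0 (X 4) i) := fun i =>
    (exists_sec p _ (hgood.comps_mem i).1 (by rw [tr_comps]; exact h0)).some
  obtain ⟨c, d, w, hwu, hLI, hdisc, hd⟩ := hgood.calc li_X p s
    (fun w q hx hw => Neg_unit (s 0) hx hw h1)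
  have hassoc : Associated (exF K) (∏ i, comps0 (X 0) (X 1) (X 2) (X 3) 0 (X 4) i) :=
    Associated.of_eq exF_eq
  have hdI : d ∈ p.img (exI K) :=
    star (d := 1) rfl hLI (hdisc.unique hassoc hU hg) hE
  have h00 : comps0 (X 0) (X 1) (X 2) (X 3) 0 (X 4) 0 ∈ exI K := mem_exI 0 (by decide)
  have hpull : ∀ h ∈ exI K, (s 0).pull h ∈ p.img (exI K) := fun h hh =>
    (s 0).pull_mem_img h00 hh
  have hspan : Ideal.span {(s 0).pull (X 2), (s 0).pull (X 3)} ≤ p.img (exI K) := by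
    rw [Ideal.span_le]
    intro x hx
    simp only [Set.mem_insert_iff, Set.mem_singleton_iff] at hx
    rcases hx with rfl | rfl
    · exact hpull _ (mem_exI 2 (by decide))
    · exact hpull _ (mem_exI 3 (by decide))
  have hw4 : w * (s 0).pull (X 4) ∈ p.img (exI K) := by
    have h2 : w * (s 0).pull (X 4) = d - (d - w * (s 0).pull (X 4)) := by ring
    rw [h2]
    exact Ideal.sub_mem _ hdI (hspan hd)
  exact Neg_notMem ((s 0).mem_of_pull_mem h00 ((Ideal.unit_mul_mem_iff_mem _ hwu).mp hw4))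

/-- The projections with a direction that has nonzero components `0` and `1` are not
equisingular. -/
theorem neg_ex {K : Type} [Field K] [IsAlgClosed K] [CharZero K] {𝒞 : ProjClass K}
    (z : Fin 4 → MvPowerSeries (Fin 5) K) {v : Fin 5 → K} (hv : ∀ i, lin (z i) v = 0)
    (hv0 : v 0 ≠ 0) (hv1 : v 1 ≠ 0) : ¬ EquiProj 𝒞 2 (exF K) (exI K) z := by
  rintro ⟨hpar, -, g, I', ⟨σ, F, hσz, ⟨U, hU⟩, hgr, rfl⟩, hE⟩
  have hvne : v ≠ 0 := by
    rintro rfl
    exact hv0 rfl
  obtain ⟨c, hc, hcv⟩ := Pool.Agent.Helper85.R2.exists_smul_tr z hpar.1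
    (⟨σ.equiv⟩ : Proj 4 K) hσz hv hvne
  refine Neg_main (⟨σ.equiv⟩ : Proj 4 K) (by rw [hcv]; exact mul_ne_zero hc hv0)
    (by rw [hcv]; exact mul_ne_zero hc hv1) (F := F) (U := U) ?_ hgr hE
  rw [ex_eq]
  exact hU

end Pool.Agent.Helper80.R3
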